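import Mathlib
import Pool.Agent.Lib.MP_44a246_ntMB.MB10
import Pool.Agent.Lib.MP_44a246_ntMB.MB50

/-!
# Extension of the constants to a field of infinite transcendence degree: existence
-/

namespace Pool.Agent.Lib.MP_44a246_ntCE

open Pool.Agent.Lib.MP_44a246_nt
open Pool.Agent.Lib.MP_44a246_ntL
open Pool.Agent.Lib.MP_44a246_ntR
open Pool.Agent.Lib.MP_44a246_ntMB
open WithZero Module Polynomial

universe u v w

/-- an algebraically closed extension of infinite transcendence degree -/
theorem exists_ext_const (κ : Type u) [Field κ] [CharZero κ] :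
    ∃ (κ' : Type u) (_ : Field κ') (_ : IsAlgClosed κ') (_ : CharZero κ') (_ : Algebra κ κ'),
      Cardinal.aleph0 ≤ Algebra.trdeg ℚ κ' := by
  let F := FractionRing (MvPolynomial ℕ κ)
  have hF : CharZero F := charZero_of_injective_algebraMap (algebraMap κ F).injective
  have hcz : CharZero (AlgebraicClosure F) :=
    charZero_of_injective_algebraMap (algebraMap F (AlgebraicClosure F)).injective
  let a1 : Algebra κ (AlgebraicClosure F) := inferInstance
  refine ⟨AlgebraicClosure F, inferInstance, inferInstance, hcz, a1, ?_⟩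
  have h1 : AlgebraicIndependent κ (MvPolynomial.X : ℕ → MvPolynomial ℕ κ) :=
    MvPolynomial.algebraicIndependent_X ℕ κ
  have h2 : AlgebraicIndependent κ (fun i : ℕ =>
      algebraMap (MvPolynomial ℕ κ) (AlgebraicClosure F) (MvPolynomial.X i)) := by
    refine h1.map' (f := IsScalarTower.toAlgHom κ (MvPolynomial ℕ κ) (AlgebraicClosure F)) ?_
    intro x y hxy
    have h3 : algebraMap (MvPolynomial ℕ κ) (AlgebraicClosure F) x =
      algebraMap (MvPolynomial ℕ κ) (AlgebraicClosure F) y := hxy
    rw [IsScalarTower.algebraMap_apply (MvPolynomial ℕ κ) F (AlgebraicClosure F),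
      IsScalarTower.algebraMap_apply (MvPolynomial ℕ κ) F (AlgebraicClosure F)] at h3
    exact IsFractionRing.injective (MvPolynomial ℕ κ) F ((algebraMap F (AlgebraicClosure F)).injective h3)
  have h3 : AlgebraicIndependent ℚ (fun i : ℕ =>
      algebraMap (MvPolynomial ℕ κ) (AlgebraicClosure F) (MvPolynomial.X i)) :=
    h2.restrictScalars (algebraMap ℚ κ).injective
  have h4 := h3.lift_cardinalMk_le_trdeg
  simpa using h4

/-- the extension of the constants of a function field -/
theorem exists_base {κ : Type u} {κ' : Type v} {K : Type w} [Field κ] [IsAlgClosed κ]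
    [CharZero κ] [Field K] [Algebra κ K] (hK : IsFF κ K) [Field κ'] [IsAlgClosed κ'] [CharZero κ']
    [Algebra κ κ'] :
    ∃ (K' : Type v) (_ : Field K') (_ : CharZero K') (_ : Algebra κ' K') (_ : Algebra K K')
      (_ : Algebra κ K') (_ : IsScalarTower κ κ' K') (_ : IsScalarTower κ K K'),
      IsCE κ κ' K K' := by
  refine hK.ind ?_
  intro _ _ _ _ _ _ _ _ _
  have t1 : IsScalarTower κ (RatFunc κ) K := by
    refine IsScalarTower.of_algebraMap_eq fun x => ?_
    rw [IsScalarTower.algebraMap_apply κ κ[X] K, IsScalarTower.algebraMap_apply κ[X] (RatFunc κ) K,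
      ← IsScalarTower.algebraMap_apply κ κ[X] (RatFunc κ)]
  obtain ⟨K', i1, i2, i3, i4, i5, i6, i7, i8, i9, h, -⟩ := exists_CE κ κ' K
  exact ⟨K', i1, charZero_of_injective_algebraMap (algebraMap κ' K').injective, i2, i3, i4, i5, i6,
    h⟩

end Pool.Agent.Lib.MP_44a246_ntCE
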