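import Mathlib
import Pool.Agent.Lib.MP_44a246_ntMB.MB20
import Pool.Agent.Lib.MP_44a246_ntMB.MB30

/-!
# Extension of the constants for a finite extension of function fields
-/

namespace Pool.Agent.Lib.MP_44a246_ntCE

open Pool.Agent.Lib.MP_44a246_nt
open Pool.Agent.Lib.MP_44a246_ntL
open Pool.Agent.Lib.MP_44a246_ntR
open Pool.Agent.Lib.MP_44a246_ntMB
open WithZero Module Polynomial

universe u v w

/-- for a finite extension `L` of `K` there is a compositum `L'` of `L` and `K'` -/
theorem exists_top {κ κ' K : Type*} {K' : Type v} {L : Type*} [Field κ] [Field κ'] [Field K]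
    [Field K'] [Field L] [Algebra κ κ'] [Algebra κ K] [Algebra κ' K'] [Algebra K K']
    [Algebra κ K'] [IsScalarTower κ κ' K'] [IsScalarTower κ K K'] (h : IsCE κ κ' K K')
    [Algebra K L] [FiniteDimensional K L] [Algebra κ L] [IsScalarTower κ K L] :
    ∃ (L' : Type v) (_ : Field L') (_ : Algebra κ' L') (_ : Algebra K' L')
      (_ : IsScalarTower κ' K' L') (_ : FiniteDimensional K' L') (_ : Algebra L L')
      (_ : Algebra κ L') (_ : IsScalarTower κ κ' L') (_ : IsScalarTower κ L L')
      (_ : Algebra K L') (_ : IsScalarTower K L L') (_ : IsScalarTower K K' L'),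
      IsCE κ κ' L L' ∧ Submodule.span K' (Set.range (algebraMap L L')) = ⊤ := by
  classical
  obtain ⟨Ω, iΩ, aΩ, hΩ, hΩalg⟩ : ∃ (Ω : Type v) (_ : Field Ω) (_ : Algebra K' Ω),
      IsAlgClosed Ω ∧ Algebra.IsAlgebraic K' Ω :=
    ⟨AlgebraicClosure K', inferInstance, inferInstance, inferInstance, inferInstance⟩
  let a1 : Algebra K Ω := ((algebraMap K' Ω).comp (algebraMap K K')).toAlgebra
  have s1 : IsScalarTower K K' Ω := IsScalarTower.of_algebraMap_eq fun _ => rfl
  have halg : Algebra.IsAlgebraic K L := Algebra.IsAlgebraic.of_finite _ _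
  obtain ⟨j⟩ : Nonempty (L →ₐ[K] Ω) := ⟨IsAlgClosed.lift⟩
  have hj : ∀ c : K, j (algebraMap K L c) = algebraMap K' Ω (algebraMap K K' c) :=
    fun c => j.commutes c
  let L' : IntermediateField K' Ω := IntermediateField.adjoin K' (Set.range j)
  have hjL : ∀ x : L, j x ∈ L' := fun x => IntermediateField.subset_adjoin _ _ ⟨x, rfl⟩
  let J : L →+* L' := j.toRingHom.codRestrict L'.toSubring hjL
  have hJ : ∀ x : L, ((J x : L') : Ω) = j x := fun x => rfl
  let a2 : Algebra L L' := J.toAlgebra
  let a3 : Algebra κ' L' := ((algebraMap K' L').comp (algebraMap κ' K')).toAlgebra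
  let a4 : Algebra κ L' := ((algebraMap κ' L').comp (algebraMap κ κ')).toAlgebra
  let a5 : Algebra K L' := ((algebraMap K' L').comp (algebraMap K K')).toAlgebra
  have t1 : IsScalarTower κ κ' L' := IsScalarTower.of_algebraMap_eq fun _ => rfl
  have t2 : IsScalarTower κ' K' L' := IsScalarTower.of_algebraMap_eq fun _ => rfl
  have t4 : IsScalarTower K K' L' := IsScalarTower.of_algebraMap_eq fun _ => rfl
  have hKL : ∀ c : K, algebraMap L L' (algebraMap K L c) = algebraMap K' L' (algebraMap K K' c) := by
    intro c
    apply Subtype.ext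
    exact hj c
  have t5 : IsScalarTower K L L' := IsScalarTower.of_algebraMap_eq fun c => (hKL c).symm
  have t3 : IsScalarTower κ L L' := by
    refine IsScalarTower.of_algebraMap_eq fun c => ?_
    rw [IsScalarTower.algebraMap_apply κ K L, hKL, ← IsScalarTower.algebraMap_apply κ K K',
      IsScalarTower.algebraMap_apply κ κ' K']
    rfl
  -- the span
  have hint : ∀ x : L, IsIntegral K' (j x) := by
    intro x
    obtain ⟨p, hp, hp0⟩ := (halg.isAlgebraic x).isIntegral
    refine ⟨p.map (algebraMap K K'), hp.map _, ?_⟩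
    rw [Polynomial.eval₂_map]
    have h4 := Polynomial.hom_eval₂ p (algebraMap K L) j.toRingHom x
    rw [hp0, map_zero] at h4
    have h5 : j.toRingHom.comp (algebraMap K L) = (algebraMap K' Ω).comp (algebraMap K K') :=
      RingHom.ext hj
    rw [h5] at h4
    exact h4.symm
  have hadj : L'.toSubalgebra = Algebra.adjoin K' (Set.range j) :=
    IntermediateField.adjoin_toSubalgebra_of_isAlgebraic fun x hx => by
      obtain ⟨y, rfl⟩ := hx
      exact (hint y).isAlgebraic
  have hspan : Submodule.span K' (Set.range (algebraMap L L')) = ⊤ := by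
    rw [eq_top_iff]
    rintro ⟨y, hy⟩ -
    have hy' : y ∈ Algebra.adjoin K' (Set.range j) := by
      rw [← hadj]
      exact hy
    have h1 : Subalgebra.toSubmodule (Algebra.adjoin K' (Set.range j)) =
        Submodule.span K' (Set.range j) := by
      rw [Algebra.adjoin_eq_span]
      have h2 : (Submonoid.closure (Set.range j) : Set Ω) = Set.range j := by
        have h3 : Submonoid.closure (Set.range j) = MonoidHom.mrange (j : L →* Ω) := by
          have h4 : Set.range j = (MonoidHom.mrange (j : L →* Ω) : Set Ω) := rfl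
          rw [h4, Submonoid.closure_eq]
        rw [h3]
        rfl
      rw [h2]
    have h2 : y ∈ Submodule.span K' (Set.range j) := by
      rw [← h1]
      exact hy'
    have h3 : Set.range j = (L'.val.toLinearMap) '' (Set.range (algebraMap L L')) := by
      rw [← Set.range_comp]
      rfl
    rw [h3, Submodule.span_image] at h2
    obtain ⟨z, hz, hzy⟩ := h2
    have h4 : z = ⟨y, hy⟩ := Subtype.ext hzy
    rw [← h4]
    exact hz
  have hfd : FiniteDimensional K' L' := by
    let b := Module.finBasis K L
    have h1 : Submodule.span K' (Set.range fun i => algebraMap L L' (b i)) = ⊤ := by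
      rw [eq_top_iff, ← hspan, Submodule.span_le]
      rintro _ ⟨x, rfl⟩
      rw [← b.sum_repr x, map_sum]
      refine sum_mem fun i _ => ?_
      rw [Algebra.smul_def, map_mul, hKL, ← Algebra.smul_def]
      exact Submodule.smul_mem _ _ (Submodule.subset_span ⟨i, rfl⟩)
    exact ⟨⟨(Set.finite_range fun i => algebraMap L L' (b i)).toFinset, by
      rw [Set.Finite.coe_toFinset]
      exact h1⟩⟩
  refine ⟨L', inferInstance, a3, inferInstance, t2, hfd, a2, a4, t1, t3, a5, t5, t4,
    ⟨h.ff.of_finite, ?_, ?_⟩, hspan⟩
  · rw [eq_top_iff]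
    obtain ⟨A, hA⟩ : ∃ A : IntermediateField κ' L',
      A = IntermediateField.adjoin κ' (Set.range (algebraMap L L')) := ⟨_, rfl⟩
    rw [← hA]
    have hA1 : ∀ x : L, algebraMap L L' x ∈ A := fun x => by
      rw [hA]
      exact IntermediateField.subset_adjoin _ _ ⟨x, rfl⟩
    have hA2 : ∀ x : K', algebraMap K' L' x ∈ A := by
      intro x
      have hx : x ∈ IntermediateField.adjoin κ' (Set.range (algebraMap K K')) := by
        rw [h.gen]
        exact IntermediateField.mem_top
      induction hx using IntermediateField.adjoin_induction with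
      | mem x hx =>
        obtain ⟨y, rfl⟩ := hx
        rw [← hKL]
        exact hA1 _
      | algebraMap x => 
        rw [← IsScalarTower.algebraMap_apply κ' K' L']
        exact A.algebraMap_mem x
      | add x y _ _ hx hy => rw [map_add]; exact A.add_mem hx hy
      | inv x _ hx => rw [map_inv₀]; exact A.inv_mem hx
      | mul x y _ _ hx hy => rw [map_mul]; exact A.mul_mem hx hy
    intro x _
    have hx : x ∈ Submodule.span K' (Set.range (algebraMap L L')) := by
      rw [hspan]
      exact Submodule.mem_top
    induction hx using Submodule.span_induction with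
    | mem x hx =>
      obtain ⟨y, rfl⟩ := hx
      exact hA1 y
    | zero => exact A.zero_mem
    | add x y _ _ hx hy => exact A.add_mem (hx trivial) (hy trivial)
    | smul c x _ hx =>
      rw [Algebra.smul_def]
      exact A.mul_mem (hA2 c) (hx trivial)
  · obtain ⟨t, ht⟩ := h.tr
    refine ⟨algebraMap K L t, ?_⟩
    rw [hKL]
    intro hcon
    exact ht ((isAlgebraic_algebraMap_iff (algebraMap K' L').injective).mp hcon)

end Pool.Agent.Lib.MP_44a246_ntCE
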