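import Mathlib
import Pool.Agent.Lib.MP_44a246_ntCE.CE20

/-!
# Extension of the constants for a finite extension of function fields: degrees, ramification,
counting functions
-/

namespace Pool.Agent.Lib.MP_44a246_ntCE

open Pool.Agent.Lib.MP_44a246_nt
open Pool.Agent.Lib.MP_44a246_ntL
open Pool.Agent.Lib.MP_44a246_ntR
open Pool.Agent.Lib.MP_44a246_ntMB
open WithZero Module Polynomial

/-- the structure over the field of rational functions of a given transcendental function -/
theorem exists_ratStruct {κ L : Type*} [Field κ] [Field L] [Algebra κ L] (hL : IsFF κ L)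
    {t : L} (ht : Transcendental κ t) :
    ∃ (_ : Algebra (RatFunc κ) L) (_ : IsScalarTower κ (RatFunc κ) L)
      (_ : FiniteDimensional (RatFunc κ) L), algebraMap (RatFunc κ) L RatFunc.X = t := by
  have hfd := finite_over_adjoin hL ht
  let F₁ := IntermediateField.adjoin κ {t}
  let E := (RatFunc.algEquivOfTranscendental t ht).toRingEquiv
  have hE : ∀ f : κ[X], ((E (algebraMap _ _ f) : F₁) : L) = aeval t f := by
    intro f
    show ((RatFunc.algEquivOfTranscendental t ht (algebraMap _ _ f)) : L) = _
    rw [RatFunc.algEquivOfTranscendental_algebraMap]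
    exact (aeval_algebraMap_apply L (IntermediateField.AdjoinSimple.gen _ t) f).symm
  let iK : Algebra (RatFunc κ) L := ((algebraMap F₁ L).comp (E : RatFunc κ →+* F₁)).toAlgebra
  refine ⟨iK, IsScalarTower.of_algebraMap_eq fun u => ?_,
    Module.Finite.of_equiv_equiv (A₁ := F₁) (B₁ := L) E.symm (RingEquiv.refl L) (by
      ext x
      show algebraMap F₁ L (E (E.symm x)) = algebraMap F₁ L x
      rw [RingEquiv.apply_symm_apply]), ?_⟩
  · have h1 := hE (C u)
    rw [aeval_C] at h1
    exact h1.symm
  · have h1 := hE X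
    rw [aeval_X, RatFunc.algebraMap_X] at h1
    exact h1

/-- the height of a transcendental function is positive -/
theorem height_ne_zero {κ K : Type*} [Field κ] [IsAlgClosed κ] [CharZero κ] [Field K] [Algebra κ K]
    (hK : IsFF κ K) : ∃ t : K, height κ ![1, t] ≠ 0 := by
  refine hK.ind ?_
  intro _ _ _ _ _ _ _ _ _
  have t1 : IsScalarTower κ (RatFunc κ) K := by
    refine IsScalarTower.of_algebraMap_eq fun x => ?_
    rw [IsScalarTower.algebraMap_apply κ κ[X] K, IsScalarTower.algebraMap_apply κ[X] (RatFunc κ) K,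
      ← IsScalarTower.algebraMap_apply κ κ[X] (RatFunc κ)]
  refine ⟨tL κ K, ?_⟩
  rw [← finrank_eq_height κ K]
  have : 0 < Module.finrank (RatFunc κ) K := Module.finrank_pos
  omega

section

set_option linter.unusedSectionVars false

variable {κ κ' K K' L L' : Type*} [Field κ] [IsAlgClosed κ] [CharZero κ] [Field κ'] [IsAlgClosed κ']
  [CharZero κ'] [Field K] [Field K'] [Field L] [Field L'] [Algebra κ κ'] [Algebra κ K]
  [Algebra κ' K'] [Algebra K K'] [Algebra κ K'] [IsScalarTower κ κ' K'] [IsScalarTower κ K K']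
  [Algebra K L] [FiniteDimensional K L] [Algebra κ L] [IsScalarTower κ K L]
  [Algebra κ' L'] [Algebra K' L'] [IsScalarTower κ' K' L'] [FiniteDimensional K' L'] [Algebra L L']
  [Algebra κ L'] [IsScalarTower κ κ' L'] [IsScalarTower κ L L']
  [Algebra K L'] [IsScalarTower K L L'] [IsScalarTower K K' L']

theorem map_map (c : K) : algebraMap L L' (algebraMap K L c) =
    algebraMap K' L' (algebraMap K K' c) := by
  rw [← IsScalarTower.algebraMap_apply K L L', ← IsScalarTower.algebraMap_apply K K' L']

theorem finrank_eq (hK : IsCE κ κ' K K') (hL : IsCE κ κ' L L') : finrank K' L' = finrank K L := by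
  obtain ⟨t, ht⟩ := height_ne_zero hK.ff
  have hx : (![1, t] : Fin 2 → K) ≠ 0 := fun h => one_ne_zero (congrFun h 0)
  have hx1 : (fun i => algebraMap K L ((![1, t] : Fin 2 → K) i)) ≠ 0 := by
    intro h
    have := congrFun h 0
    simp at this
  have hx2 : (fun i => algebraMap K K' ((![1, t] : Fin 2 → K) i)) ≠ 0 := by
    intro h
    have := congrFun h 0
    simp at this
  have h1 := hL.height_eq hx1
  rw [hL.ff.height_ext hx] at h1
  have h2 := hL.isFF.height_ext (K := K') hx2
  rw [hK.height_eq hx] at h2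
  have h3 : (fun i => algebraMap L L' (algebraMap K L ((![1, t] : Fin 2 → K) i))) =
      fun i => algebraMap K' L' (algebraMap K K' ((![1, t] : Fin 2 → K) i)) := by
    funext i
    exact map_map _
  rw [h3, h2] at h1
  have h4 := mul_right_cancel₀ ht h1
  exact_mod_cast h4

/-- `K'` and `L` are linearly disjoint over `K` -/
theorem linInd (hK : IsCE κ κ' K K') (hL : IsCE κ κ' L L')
    (hspan : Submodule.span K' (Set.range (algebraMap L L')) = ⊤) {ι : Type*} {b : ι → K'}
    (hb : LinearIndependent K b) : LinearIndependent L (fun i => algebraMap K' L' (b i)) := by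
  classical
  let e := Module.finBasis K L
  have h1 : ⊤ ≤ Submodule.span K' (Set.range fun i => algebraMap L L' (e i)) := by
    rw [← hspan, Submodule.span_le]
    rintro _ ⟨x, rfl⟩
    rw [← e.sum_repr x, map_sum]
    refine sum_mem fun i _ => ?_
    rw [Algebra.smul_def, map_mul, map_map (K' := K'), ← Algebra.smul_def]
    exact Submodule.smul_mem _ _ (Submodule.subset_span ⟨i, rfl⟩)
  have h2 : LinearIndependent K' (fun i => algebraMap L L' (e i)) := by
    apply linearIndependent_of_top_le_span_of_card_eq_finrank h1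
    rw [Fintype.card_fin, finrank_eq hK hL]
  rw [linearIndependent_iff']
  intro s g hg i hi
  have h3 : ∑ j, (∑ i ∈ s, e.repr (g i) j • b i) • algebraMap L L' (e j) = 0 := by
    rw [← hg]
    have h4 : ∀ i ∈ s, g i • algebraMap K' L' (b i) =
        ∑ j, (e.repr (g i) j • b i) • algebraMap L L' (e j) := by
      intro i _
      conv_lhs => rw [← e.sum_repr (g i)]
      rw [Finset.sum_smul]
      refine Finset.sum_congr rfl fun j _ => ?_
      simp only [Algebra.smul_def]
      rw [map_mul, map_mul, map_map (K' := K')]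
      ring
    rw [Finset.sum_congr rfl h4, Finset.sum_comm]
    refine Finset.sum_congr rfl fun j _ => ?_
    rw [Finset.sum_smul]
  have h5 := Fintype.linearIndependent_iff.1 h2 _ h3
  have h6 : ∀ j, e.repr (g i) j = 0 := by
    intro j
    exact linearIndependent_iff'.1 hb s (fun i => e.repr (g i) j) (h5 j) i hi
  have h7 : e.repr (g i) = 0 := by
    ext j
    exact h6 j
  exact e.repr.map_eq_zero_iff.1 h7

theorem ramIdx_ext_le (w : Place κ L) {w' : Place κ' L'} (hw : ∀ a, w'.1 (algebraMap L L' a) = w.1 a) :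
    ramIdx K' w'.1 ≤ ramIdx K w.1 := by
  obtain ⟨s, hs⟩ := exists_ramIdx (K := K) w.1 w.2.1
  have h1 := one_le_ramIdx (K := K) w.1 w.2.1
  refine Nat.sInf_le ⟨h1, algebraMap K K' s, ?_⟩
  rw [← map_map (L := L), hw, hs]

/-- the places of `L'` which are trivial on `L` are unramified over `K'` -/
theorem ramIdx_triv (hK : IsCE κ κ' K K') (hL : IsCE κ κ' L L') {w : Place κ' L'}
    (hw : ∀ a ≠ 0, w.1 (algebraMap L L' a) = 1) : ramIdx K' w.1 = 1 := by
  obtain ⟨t, ht⟩ := hK.tr
  have ht0 : Transcendental κ t := by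
    intro halg
    apply ht
    have h1 : IsAlgebraic κ (algebraMap K K' t) := halg.algebraMap
    exact h1.tower_top κ'
  have hu : Transcendental κ (algebraMap K L t) := fun h =>
    ht0 ((isAlgebraic_algebraMap_iff (algebraMap K L).injective).1 h)
  have hu' : Transcendental κ' (algebraMap K' L' (algebraMap K K' t)) := fun h =>
    ht ((isAlgebraic_algebraMap_iff (algebraMap K' L').injective).1 h)
  obtain ⟨_, _, _, h1⟩ := exists_ratStruct hL.ff hu
  obtain ⟨_, _, _, h2⟩ := exists_ratStruct hL.isFF hu'
  have h3 := hL.ramIdx_eq_one (by rw [h1, h2, map_map (K' := K')]) w hw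
  obtain ⟨s, hs⟩ := exists_ramIdx (K := RatFunc κ') w.1 w.2.1
  rw [h3, algebraMap_ratκ, h2] at hs
  have h4 : ramIdx K' w.1 ≤ 1 := by
    refine Nat.sInf_le ⟨one_pos, aeval (algebraMap K K' t) s.num / aeval (algebraMap K K' t) s.denom,
      ?_⟩
    rw [map_div₀, ← aeval_algebraMap_apply, ← aeval_algebraMap_apply, hs]
  have h5 := one_le_ramIdx (K := K') w.1 w.2.1
  omega

theorem ramDeg_le (hK : IsCE κ κ' K K') (hL : IsCE κ κ' L L') : ramDeg κ' L' K' ≤ ramDeg κ L K := by
  obtain ⟨ext, hinj, hext, hdich⟩ := hL.exists_ext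
  unfold ramDeg
  have h1 : ∀ w : Place κ' L', w ∈ Function.support (fun w : Place κ' L' =>
      ramIdx K' w.1 - 1) → (w ∈ Set.univ ↔ w ∈ Set.range ext) := by
    intro w hw'
    refine ⟨fun _ => ?_, fun _ => Set.mem_univ _⟩
    rcases hdich w with h2 | h2
    · exact h2
    · exfalso
      apply hw'
      show ramIdx K' w.1 - 1 = 0
      rw [ramIdx_triv hK hL h2]
  rw [← finsum_mem_univ, finsum_mem_inter_support_eq' _ _ _ h1, finsum_mem_range hinj]
  have hfin := hL.ff.ramIdx_finite (K := K)
  have hle : ∀ v, ramIdx K' (ext v).1 - 1 ≤ ramIdx K v.1 - 1 := fun v => by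
    have := ramIdx_ext_le (K := K) (K' := K') v (hext v)
    omega
  have h2 : (Function.support fun v : Place κ L => ramIdx K v.1 - 1) ⊆ ↑hfin.toFinset := by
    intro v hv
    rw [Set.Finite.coe_toFinset]
    intro h
    apply hv
    show ramIdx K v.1 - 1 = 0
    omega
  have h3 : (Function.support fun v : Place κ L => ramIdx K' (ext v).1 - 1) ⊆ ↑hfin.toFinset := by
    intro v hv
    apply h2
    intro h
    apply hv
    have := hle v
    change ramIdx K v.1 - 1 = 0 at h
    show ramIdx K' (ext v).1 - 1 = 0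
    omega
  rw [finsum_eq_sum_of_support_subset _ h2, finsum_eq_sum_of_support_subset _ h3]
  exact Finset.sum_le_sum fun v _ => hle v

/-- the set of the extensions of the places of a set -/
def extSet (S : Set (Place κ K)) : Set (Place κ' K') :=
  {v' | ∃ v ∈ S, ∀ a, v'.1 (algebraMap K K' a) = v.1 a}

theorem extSet_finite (hK : IsCE κ κ' K K') {S : Set (Place κ K)} (hS : S.Finite) :
    (extSet S : Set (Place κ' K')).Finite := by
  obtain ⟨ext, hinj, hext, hdich⟩ := hK.exists_ext
  refine (hS.image ext).subset ?_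
  rintro v' ⟨v, hv, h⟩
  refine ⟨v, hv, ?_⟩
  rcases hdich v' with ⟨v₁, rfl⟩ | h2
  · congr 1
    apply Subtype.ext
    apply Valuation.ext
    intro a
    rw [← h, hext]
  · exfalso
    obtain ⟨π, hπ⟩ := v.2.1 (exp (-1 : ℤ))
    have hπ0 : π ≠ 0 := by
      rintro rfl
      rw [map_zero] at hπ
      exact exp_ne_zero hπ.symm
    have h3 := h2 π hπ0
    rw [h, hπ, ← exp_zero] at h3
    have := exp_injective h3
    omega

/-- the counting functions -/
theorem ncard_le (hK : IsCE κ κ' K K') (hL : IsCE κ κ' L L') {ι σ : Type*} [Fintype σ]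
    {P : ι → Prop} {y : ι → L} (hy : ∀ i, P i → y i ≠ 0) {x : σ → L} (d : ι → ℕ)
    {S : Set (Place κ K)}
    (hfin : {w : Place κ L | (∀ v ∈ S, ¬ (w.1.comap (algebraMap K L)).IsEquiv v.1) ∧
      ∃ i, P i ∧ w.1 (y i) < vmax w.1 x ^ d i}.Finite) :
    Set.ncard {w : Place κ' L' | (∀ v ∈ (extSet S : Set (Place κ' K')),
        ¬ (w.1.comap (algebraMap K' L')).IsEquiv v.1) ∧
      ∃ i, P i ∧ w.1 (algebraMap L L' (y i)) < vmax w.1 (fun j => algebraMap L L' (x j)) ^ d i} ≤
    Set.ncard {w : Place κ L | (∀ v ∈ S, ¬ (w.1.comap (algebraMap K L)).IsEquiv v.1) ∧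
      ∃ i, P i ∧ w.1 (y i) < vmax w.1 x ^ d i} := by
  obtain ⟨ext, hinj, hext, hdich⟩ := hL.exists_ext
  obtain ⟨extK, hinjK, hextK, hdichK⟩ := hK.exists_ext
  rw [← Set.ncard_image_of_injective _ hinj]
  refine Set.ncard_le_ncard ?_ (hfin.image ext)
  rintro w' ⟨h1, i, hPi, hi⟩
  rcases hdich w' with ⟨w, rfl⟩ | h2
  · refine ⟨w, ⟨fun v hv hequiv => ?_, i, hPi, ?_⟩, rfl⟩
    · -- the place of `K'` below `ext w` is the extension of `v`
      have hpow := fun a : K' => below_pow (K := K') (ext w) a
      obtain ⟨e, he⟩ : ∃ e, e = ramIdx K' (ext w).1 := ⟨_, rfl⟩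
      have he1 : 1 ≤ e := by rw [he]; exact one_le_ramIdx (K := K') (ext w).1 (ext w).2.1
      rw [← he] at hpow
      have hK1 : ∀ a : K, (below K' (ext w)).1 (algebraMap K K' a) ≤ 1 ↔ v.1 a ≤ 1 := by
        intro a
        have e1 : (below K' (ext w)).1 (algebraMap K K' a) ≤ 1 ↔
            (ext w).1 (algebraMap K' L' (algebraMap K K' a)) ≤ 1 := by
          rw [hpow]
          exact (pow_le_one_iff (by omega)).symm
        rw [e1, ← map_map (L := L), hext]
        have e2 := hequiv.le_one_iff_le_one (x := a)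
        rw [Valuation.comap_apply] at e2
        exact e2
      have hK2 : below K' (ext w) = extK v := by
        rcases hdichK (below K' (ext w)) with ⟨v₁, hv₁⟩ | h2
        · rw [← hv₁]
          congr 1
          apply place_eq_of_le
          intro u hu
          rw [← hK1, ← hv₁, hextK]
          exact hu
        · exfalso
          obtain ⟨π, hπ⟩ := v.2.1 (exp (1 : ℤ))
          have hπ0 : π ≠ 0 := by
            rintro rfl
            rw [map_zero] at hπ
            exact exp_ne_zero hπ.symm
          have h3 := (hK1 π).1 (h2 π hπ0).le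
          rw [hπ, ← exp_zero, exp_le_exp] at h3
          omega
      refine h1 (extK v) ⟨v, hv, hextK v⟩ ?_
      rw [← hK2]
      rw [Valuation.isEquiv_iff_val_le_one]
      intro a
      rw [Valuation.comap_apply, hpow]
      exact pow_le_one_iff (by omega)
    · rw [hext] at hi
      have e1 : vmax (ext w).1 (fun j => algebraMap L L' (x j)) = vmax w.1 x := by
        unfold vmax
        exact Finset.sup_congr rfl fun j _ => hext w (x j)
      rwa [e1] at hi
  · exfalso
    rw [h2 _ (hy i hPi)] at hi
    have h3 : vmax w'.1 (fun j => algebraMap L L' (x j)) ≤ 1 := by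
      apply vmax_le
      intro j
      by_cases h0 : x j = 0
      · rw [h0, map_zero, map_zero]
        exact zero_le_one
      · exact (h2 _ h0).le
    exact absurd hi (not_lt.2 (pow_le_one' h3 _))

theorem pointField_top (hspan : Submodule.span K' (Set.range (algebraMap L L')) = ⊤) {σ : Type*}
    {x : σ → L} (h : pointField K x = ⊤) :
    pointField K' (fun i => algebraMap L L' (x i)) = ⊤ := by
  have h1 : ∀ y : L, algebraMap L L' y ∈ pointField K' (fun i => algebraMap L L' (x i)) := by
    intro y
    have hy : y ∈ pointField K x := by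
      rw [h]
      exact IntermediateField.mem_top
    unfold pointField at hy
    obtain ⟨A, hA⟩ : ∃ A, A = pointField K' (fun i => algebraMap L L' (x i)) := ⟨_, rfl⟩
    rw [← hA]
    induction hy using IntermediateField.adjoin_induction with
    | mem z hz =>
      obtain ⟨i, j, rfl⟩ := hz
      rw [map_div₀, hA]
      exact IntermediateField.subset_adjoin _ _ ⟨i, j, rfl⟩
    | algebraMap c =>
      rw [map_map (K' := K')]
      exact A.algebraMap_mem _
    | add a b _ _ ha hb => rw [map_add]; exact A.add_mem ha hb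
    | inv a _ ha => rw [map_inv₀]; exact A.inv_mem ha
    | mul a b _ _ ha hb => rw [map_mul]; exact A.mul_mem ha hb
  rw [eq_top_iff]
  intro z _
  have hz : z ∈ Submodule.span K' (Set.range (algebraMap L L')) := by
    rw [hspan]
    exact Submodule.mem_top
  induction hz using Submodule.span_induction with
  | mem z hz =>
    obtain ⟨y, rfl⟩ := hz
    exact h1 y
  | zero => exact zero_mem _
  | add a b _ _ ha hb => exact add_mem (ha trivial) (hb trivial)
  | smul c a _ ha =>
    rw [Algebra.smul_def]
    exact mul_mem (IntermediateField.algebraMap_mem _ _) (ha trivial)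

end

end Pool.Agent.Lib.MP_44a246_ntCE
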