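import Mathlib

/-!
# Extension of the constants: the dimension and the transcendence degree
-/

namespace Pool.Agent.Lib.MP_44a246_ntCE

open MvPolynomial

attribute [local instance] MvPolynomial.algebraMvPolynomial

/-- the polynomials over an extension field are faithfully flat -/
theorem faithfullyFlat_mvPoly (K K' : Type*) [Field K] [Field K'] [Algebra K K'] (σ : Type*) :
    Module.FaithfullyFlat (MvPolynomial σ K) (MvPolynomial σ K') :=
  .of_linearEquiv _ _ (Algebra.IsPushout.equiv K (MvPolynomial σ K) K'
    (MvPolynomial σ K')).symm.toLinearEquiv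

/-- The dimension of a closed subset does not get smaller over an extension field. -/
theorem ringKrullDim_le_baseChange {K K' : Type*} [Field K] [Field K'] [Algebra K K'] {σ : Type*}
    {β : Type*} (G : β → MvPolynomial σ K) :
    ringKrullDim (MvPolynomial σ K ⧸ Ideal.span (Set.range G)) ≤
      ringKrullDim (MvPolynomial σ K' ⧸
        Ideal.span (Set.range fun i => map (algebraMap K K') (G i))) := by
  have hff := faithfullyFlat_mvPoly K K' σ
  have hI : Ideal.span (Set.range fun i => map (algebraMap K K') (G i)) =
      (Ideal.span (Set.range G)).map (algebraMap (MvPolynomial σ K) (MvPolynomial σ K')) := by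
    rw [Ideal.map_span, ← Set.range_comp]
    rfl
  rw [ringKrullDim_quotient, ringKrullDim_quotient, hI]
  refine iSup_le fun l => ?_
  -- the series in the spectrum
  have hmono : StrictMono (fun q : PrimeSpectrum.zeroLocus
      ((Ideal.span (Set.range G) : Ideal (MvPolynomial σ K)) : Set (MvPolynomial σ K)) =>
        (q : PrimeSpectrum (MvPolynomial σ K))) := fun a b h => h
  obtain ⟨l', hl'⟩ : ∃ l' : LTSeries (PrimeSpectrum (MvPolynomial σ K)), l' = l.map _ hmono :=
    ⟨_, rfl⟩
  have hall : ∀ i', l' i' ∈ PrimeSpectrum.zeroLocus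
      ((Ideal.span (Set.range G) : Ideal (MvPolynomial σ K)) : Set (MvPolynomial σ K)) := by
    subst hl'
    exact fun i' => (l i').2
  obtain ⟨P, hP⟩ := PrimeSpectrum.comap_surjective_of_faithfullyFlat
    (A := MvPolynomial σ K) (B := MvPolynomial σ K') l'.last
  have hlo : P.asIdeal.LiesOver l'.last.asIdeal := ⟨by rw [← hP]; rfl⟩
  obtain ⟨s, hs1, hs2, hs3⟩ := Ideal.exists_ltSeries_of_hasGoingDown l' P.asIdeal
  have hmem : ∀ i, s i ∈ PrimeSpectrum.zeroLocus (((Ideal.span (Set.range G)).map
      (algebraMap (MvPolynomial σ K) (MvPolynomial σ K')) : Ideal (MvPolynomial σ K')) :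
        Set (MvPolynomial σ K')) := by
    intro i
    have h1 : PrimeSpectrum.comap (algebraMap (MvPolynomial σ K) (MvPolynomial σ K')) (s i) ∈
        l'.toList := by
      rw [← hs3]
      refine List.mem_map_of_mem ?_
      rw [RelSeries.mem_toList]
      exact ⟨i, rfl⟩
    rw [RelSeries.mem_toList] at h1
    obtain ⟨i', hi'⟩ := h1
    have h2 := hall i'
    rw [PrimeSpectrum.mem_zeroLocus, SetLike.coe_subset_coe, Ideal.map_le_iff_le_comap]
    rw [PrimeSpectrum.mem_zeroLocus, SetLike.coe_subset_coe, hi'] at h2
    exact h2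
  obtain ⟨s', hs'⟩ : ∃ s' : LTSeries (PrimeSpectrum.zeroLocus (((Ideal.span (Set.range G)).map
      (algebraMap (MvPolynomial σ K) (MvPolynomial σ K')) : Ideal (MvPolynomial σ K')) :
        Set (MvPolynomial σ K'))), s'.length = s.length :=
    ⟨⟨s.length, fun i => ⟨s i, hmem i⟩, fun i => s.step i⟩, rfl⟩
  have h3 : l.length = s'.length := by
    rw [hs', hs1, hl']
    rfl
  rw [h3]
  exact le_iSup (fun t : LTSeries _ => ((t.length : ℕ∞) : WithBot ℕ∞)) s'

section Gen

universe u v w

variable {k : Type w} {K : Type u} {K' : Type v} [Field k] [Field K] [Field K'] [Algebra k K]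
  [Algebra K K'] [Algebra k K'] [IsScalarTower k K K']

/-- The transcendence degree of a generated subfield does not depend on the ambient field. -/
theorem lift_trdeg_adjoin_map (s : Set K) :
    Cardinal.lift.{v} (Algebra.trdeg k (IntermediateField.adjoin k s)) =
      Cardinal.lift.{u} (Algebra.trdeg k (IntermediateField.adjoin k (algebraMap K K' '' s))) := by
  have h1 := ((IntermediateField.adjoin k s).equivMap (IsScalarTower.toAlgHom k K K')).lift_trdeg_eq
  rw [h1, IntermediateField.adjoin_map]
  rfl

/-- The condition for the coefficients over an extension field. -/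
theorem gen_map {β : Type*} {a : β → K} {N c : ℕ}
    (h : (N : Cardinal.{u}) ≤
      Algebra.trdeg k (IntermediateField.adjoin k (Set.range a)) + (c : Cardinal.{u})) :
    (N : Cardinal.{v}) ≤ Algebra.trdeg k (IntermediateField.adjoin k
      (Set.range fun i => algebraMap K K' (a i))) + (c : Cardinal.{v}) := by
  have h1 := lift_trdeg_adjoin_map (k := k) (K' := K') (Set.range a)
  rw [← Set.range_comp] at h1
  have h2 := Cardinal.lift_le.{v}.2 h
  rw [Cardinal.lift_natCast, Cardinal.lift_add, Cardinal.lift_natCast, h1] at h2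
  have h3 : Cardinal.lift.{u} (N : Cardinal.{v}) ≤ Cardinal.lift.{u} (Algebra.trdeg k
      (IntermediateField.adjoin k (Set.range fun i => algebraMap K K' (a i))) + (c : Cardinal.{v})) := by
    rw [Cardinal.lift_natCast, Cardinal.lift_add, Cardinal.lift_natCast]
    exact h2
  exact Cardinal.lift_le.1 h3

end Gen

end Pool.Agent.Lib.MP_44a246_ntCE
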