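import Mathlib
import Pool.Agent.Lib.MP_44a246_ntMB.MB11
import Pool.Agent.Lib.MP_44a246_ntCE.CEa

/-!
# Extension of the constants: forms over the extension of the field
-/

namespace Pool.Agent.Lib.MP_44a246_ntCE

open Pool.Agent.Lib.MP_44a246_ntMB
open MvPolynomial

universe u₂

variable {κ : Type*} {κ' : Type u₂} {K K' : Type*} [Field κ] [Field κ'] [Field K] [Field K'] [Algebra κ κ'] [Algebra κ K]
  [Algebra κ' K'] [Algebra K K'] [Algebra κ K'] [IsScalarTower κ κ' K'] [IsScalarTower κ K K']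

/-- a common denominator of the coefficients -/
theorem exists_denom
    (hgen : Subfield.closure (Set.range (algebraMap κ' K') ∪ Set.range (algebraMap K K')) = ⊤)
    {ι : Type*} (s : Finset ι) (c : ι → K') :
    ∃ y : K', y ≠ 0 ∧ Rep κ κ' (⊤ : Subring K) y ∧ ∀ i ∈ s, Rep κ κ' (⊤ : Subring K) (y * c i) := by
  classical
  have hO : ∀ a : κ, algebraMap κ K a ∈ (⊤ : Subring K) := fun a => Subring.mem_top _
  have h1 : Rep κ κ' (⊤ : Subring K) (1 : K') := by
    have h1 := Rep.const (κ₁ := κ') (L₁ := K') hO 1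
    rwa [map_one] at h1
  induction s using Finset.induction_on with
  | empty => exact ⟨1, one_ne_zero, h1, fun i hi => absurd hi (Finset.notMem_empty i)⟩
  | insert i s hi ih =>
    obtain ⟨y, hy0, hy, hys⟩ := ih
    obtain ⟨y₁, y₂, h2, h3, h4⟩ := exists_quot (κ₀ := κ) hgen (c i)
    by_cases h5 : y₂ = 0
    · refine ⟨y, hy0, hy, fun j hj => ?_⟩
      rcases Finset.mem_insert.1 hj with rfl | hj
      · rw [h4, h5, div_zero, mul_zero]
        exact Rep.zero _
      · exact hys j hj
    · refine ⟨y * y₂, mul_ne_zero hy0 h5, hy.mul hO h3, fun j hj => ?_⟩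
      rcases Finset.mem_insert.1 hj with rfl | hj
      · rw [h4, mul_assoc, mul_div_cancel₀ _ h5]
        exact hy.mul hO h2
      · rw [mul_right_comm]
        exact (hys j hj).mul hO h3

/-- a polynomial over the extension as a combination of polynomials over the field -/
theorem exists_decomp
    (hgen : Subfield.closure (Set.range (algebraMap κ' K') ∪ Set.range (algebraMap K K')) = ⊤)
    {σ : Type*} (G : MvPolynomial σ K') :
    ∃ (y : K') (J : Finset (Module.Basis.ofVectorSpaceIndex κ κ'))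
      (g : Module.Basis.ofVectorSpaceIndex κ κ' → MvPolynomial σ K), y ≠ 0 ∧
      C y * G = ∑ j ∈ J, C (algebraMap κ' K' (ceB κ κ' j)) * map (algebraMap K K') (g j) ∧
      ∀ j, (g j).support ⊆ G.support := by
  classical
  obtain ⟨y, hy0, -, hy⟩ := exists_denom (κ := κ) hgen G.support (fun m => G.coeff m)
  choose! f hf1 hf2 using hy
  refine ⟨y, G.support.biUnion fun m => (f m).support,
    fun j => ∑ m ∈ G.support, monomial m (f m j), hy0, ?_, fun j => ?_⟩
  · have h1 : C y * G = ∑ m ∈ G.support, monomial m (y * G.coeff m) := by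
      conv_lhs => rw [G.as_sum]
      rw [Finset.mul_sum]
      exact Finset.sum_congr rfl fun m _ => by rw [C_mul_monomial]
    rw [h1]
    have h2 : ∀ j, C (algebraMap κ' K' (ceB κ κ' j)) * map (algebraMap K K')
        (∑ m ∈ G.support, monomial m (f m j)) = ∑ m ∈ G.support,
        monomial m (algebraMap κ' K' (ceB κ κ' j) * algebraMap K K' (f m j)) := by
      intro j
      rw [map_sum, Finset.mul_sum]
      exact Finset.sum_congr rfl fun m _ => by rw [map_monomial, C_mul_monomial]
    simp only [h2]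
    rw [Finset.sum_comm]
    refine Finset.sum_congr rfl fun m hm => ?_
    rw [hf2 m hm, Finsupp.sum, map_sum]
    refine Finset.sum_subset (Finset.subset_biUnion_of_mem (fun m => (f m).support) hm)
      fun j _ hj => ?_
    rw [Finsupp.notMem_support_iff.1 hj, map_zero, mul_zero, map_zero]
  · refine (support_sum).trans ?_
    refine Finset.biUnion_subset.2 fun m hm => ?_
    refine (support_monomial_subset).trans ?_
    exact Finset.singleton_subset_iff.2 hm

/-- **Forms over the extension** -/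
theorem exists_descent
    (hgen : Subfield.closure (Set.range (algebraMap κ' K') ∪ Set.range (algebraMap K K')) = ⊤)
    {σ : Type*} {b : ℕ} {D : WithBot ℕ∞} (G : Fin b → MvPolynomial σ K')
    (hG : ∀ i, ∃ E, (G i).IsHomogeneous E)
    (hD : ringKrullDim (MvPolynomial σ K' ⧸ Ideal.span (Set.range G)) ≤ D) :
    ∃ (b' : ℕ) (G' : Fin b' → MvPolynomial σ K), (∀ i, ∃ E, (G' i).IsHomogeneous E) ∧
      ringKrullDim (MvPolynomial σ K ⧸ Ideal.span (Set.range G')) ≤ D ∧
      ∀ {L L' : Type*} [Field L] [Field L'] [Algebra K L] [Algebra K' L'] [Algebra L L']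
        [Algebra K L'] [Algebra κ' L'] [IsScalarTower K K' L'] [IsScalarTower K L L']
        [IsScalarTower κ' K' L'],
        (∀ (I : Type u₂) (a : I → κ'), LinearIndependent κ a → ∀ (s : Finset I) (f : I → L),
          ∑ i ∈ s, algebraMap κ' L' (a i) * algebraMap L L' (f i) = 0 → ∀ i ∈ s, f i = 0) →
        ∀ x : σ → L, (∀ i, aeval (fun l => algebraMap L L' (x l)) (G i) = 0) →
          ∀ i, aeval x (G' i) = 0 := by
  classical
  choose y J g hy hdec hsupp using fun i => exists_decomp (κ := κ) hgen (G i)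
  obtain ⟨e⟩ : Nonempty ((Σ i : Fin b, {j // j ∈ J i}) ≃
      Fin (Fintype.card (Σ i : Fin b, {j // j ∈ J i}))) := ⟨Fintype.equivFin _⟩
  refine ⟨_, fun q => g (e.symm q).1 (e.symm q).2, fun q => ?_, ?_, ?_⟩
  · obtain ⟨E, hE⟩ := hG (e.symm q).1
    refine ⟨E, fun m hm => ?_⟩
    have h1 := hsupp (e.symm q).1 (e.symm q).2 (mem_support_iff.2 hm)
    exact hE (mem_support_iff.1 h1)
  · refine (ringKrullDim_le_baseChange (K' := K') _).trans (le_trans ?_ hD)
    have hle : Ideal.span (Set.range G) ≤ Ideal.span (Set.range fun q =>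
        map (algebraMap K K') (g (e.symm q).1 (e.symm q).2)) := by
      rw [Ideal.span_le]
      rintro _ ⟨i, rfl⟩
      have h1 : G i = C (y i)⁻¹ * (C (y i) * G i) := by
        rw [← mul_assoc, ← C_mul, inv_mul_cancel₀ (hy i), C_1, one_mul]
      rw [SetLike.mem_coe, h1, hdec]
      refine Ideal.mul_mem_left _ _ (Ideal.sum_mem _ fun j hj => Ideal.mul_mem_left _ _ ?_)
      refine Ideal.subset_span ⟨e ⟨i, ⟨j, hj⟩⟩, ?_⟩
      have h2 := e.symm_apply_apply ⟨i, ⟨j, hj⟩⟩
      show map (algebraMap K K') (g (e.symm (e ⟨i, ⟨j, hj⟩⟩)).1 (e.symm (e ⟨i, ⟨j, hj⟩⟩)).2) = _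
      rw [h2]
    exact ringKrullDim_le_of_surjective (Ideal.Quotient.factor hle)
      (Ideal.Quotient.factor_surjective hle)
  · intro L L' _ _ _ _ _ _ _ _ _ _ hdisj x hx q
    obtain ⟨⟨i, j, hj⟩, rfl⟩ := e.surjective q
    show aeval x (g (e.symm (e ⟨i, ⟨j, hj⟩⟩)).1 (e.symm (e ⟨i, ⟨j, hj⟩⟩)).2) = 0
    rw [e.symm_apply_apply ⟨i, ⟨j, hj⟩⟩]
    have h1 := congrArg (aeval (fun l => algebraMap L L' (x l))) (hdec i)
    rw [map_mul, hx, mul_zero, map_sum] at h1
    have h2 : ∀ j, aeval (fun l => algebraMap L L' (x l))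
        (C (algebraMap κ' K' (ceB κ κ' j)) * map (algebraMap K K') (g i j)) =
        algebraMap κ' L' (ceB κ κ' j) * algebraMap L L' (aeval x (g i j)) := by
      intro j
      rw [map_mul, aeval_C, ← IsScalarTower.algebraMap_apply κ' K' L', aeval_map_algebraMap,
        ← aeval_algebraMap_apply]
      rfl
    simp only [h2] at h1
    exact hdisj _ _ (ceB κ κ').linearIndependent _ _ h1.symm j hj

end Pool.Agent.Lib.MP_44a246_ntCE
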