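import Mathlib
import Pool.Agent.Lib.MP_44a246_ntCE.CEb

/-!
# Extension of the constants: a form which does not vanish on a closed subset
-/

namespace Pool.Agent.Lib.MP_44a246_ntCE

open Pool.Agent.Lib.MP_44a246_ntMB
open MvPolynomial

universe u₂

variable {κ : Type*} {κ' : Type u₂} {K K' : Type*} [Field κ] [Field κ'] [Field K] [Field K']
  [Algebra κ κ'] [Algebra κ K] [Algebra κ' K'] [Algebra K K'] [Algebra κ K']
  [IsScalarTower κ κ' K'] [IsScalarTower κ K K']

/-- a form over `K'` which does not vanish on the whole of a closed subset defined over `K` gives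
such a form over `K` -/
theorem exists_form
    (hgen : Subfield.closure (Set.range (algebraMap κ' K') ∪ Set.range (algebraMap K K')) = ⊤)
    {n : ℕ} {I : Type*} (F : I → MvPolynomial (Fin (n + 1)) K) (G : MvPolynomial (Fin (n + 1)) K')
    (hG : ∃ e, G.IsHomogeneous e) {Ω : Type*} [Field Ω] [Algebra K' Ω] {z : Fin (n + 1) → Ω}
    (hz : z ≠ 0) (hz1 : ∀ j, aeval z (map (algebraMap K K') (F j)) = 0) (hz2 : aeval z G ≠ 0) :
    ∃ G₀ : MvPolynomial (Fin (n + 1)) K, (∃ e, G₀.IsHomogeneous e) ∧
      (∃ z : Fin (n + 1) → AlgebraicClosure K, z ≠ 0 ∧ (∀ j, aeval z (F j) = 0) ∧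
        aeval z G₀ ≠ 0) ∧
      ∀ {L L' : Type*} [Field L] [Field L'] [Algebra K L] [Algebra K' L'] [Algebra L L']
        [Algebra K L'] [Algebra κ' L'] [IsScalarTower K K' L'] [IsScalarTower K L L']
        [IsScalarTower κ' K' L'],
        (∀ (I : Type u₂) (a : I → κ'), LinearIndependent κ a → ∀ (s : Finset I) (f : I → L),
          ∑ i ∈ s, algebraMap κ' L' (a i) * algebraMap L L' (f i) = 0 → ∀ i ∈ s, f i = 0) →
        ∀ x : Fin (n + 1) → L, aeval (fun l => algebraMap L L' (x l)) G = 0 → aeval x G₀ = 0 := by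
  classical
  obtain ⟨y, J, g, hy0, hdec, hsupp⟩ := exists_decomp (κ := κ) hgen G
  obtain ⟨l, hl⟩ := Function.ne_iff.1 hz
  rw [Pi.zero_apply] at hl
  -- one of the forms does not vanish on the closed subset
  have h1 : ∃ j ∈ J, g j * X l ∉ (Ideal.span (Set.range F)).radical := by
    by_contra hcon
    push Not at hcon
    have h2 : ∀ j ∈ J, aeval z (map (algebraMap K K') (g j)) = 0 := by
      intro j hj
      obtain ⟨N, hN⟩ := hcon j hj
      let φ : MvPolynomial (Fin (n + 1)) K →+* Ω :=
        (aeval z : MvPolynomial (Fin (n + 1)) K' →ₐ[K'] Ω).toRingHom.comp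
          (map (algebraMap K K'))
      have h3 : Ideal.span (Set.range F) ≤ RingHom.ker φ := by
        rw [Ideal.span_le]
        rintro _ ⟨i, rfl⟩
        exact hz1 i
      have h4 : φ ((g j * X l) ^ N) = 0 := h3 hN
      rw [map_pow] at h4
      have h5 : φ (g j * X l) = 0 := by
        by_contra h
        exact pow_ne_zero N h h4
      have h6 : φ (g j) * φ (X l) = 0 := by
        rw [← map_mul]
        exact h5
      have h7 : φ (X l) = z l := by
        show aeval z (map (algebraMap K K') (X l)) = z l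
        rw [map_X, aeval_X]
      rw [h7] at h6
      exact (mul_eq_zero.1 h6).resolve_right hl
    have h8 := congrArg (aeval z) hdec
    rw [map_mul, map_sum, Finset.sum_eq_zero (fun j hj => by rw [map_mul, h2 j hj, mul_zero]),
      aeval_C] at h8
    rcases mul_eq_zero.1 h8 with h9 | h9
    · exact hy0 ((map_eq_zero _).1 h9)
    · exact hz2 h9
  obtain ⟨j, hj, hjr⟩ := h1
  refine ⟨g j, ?_, ?_, ?_⟩
  · obtain ⟨e, he⟩ := hG
    refine ⟨e, fun m hm => ?_⟩
    exact he (mem_support_iff.1 (hsupp j (mem_support_iff.2 hm)))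
  · rw [← vanishingIdeal_zeroLocus_eq_radical (K := AlgebraicClosure K),
      mem_vanishingIdeal_iff] at hjr
    push Not at hjr
    obtain ⟨z₀, hz₀, hz₁⟩ := hjr
    rw [map_mul, aeval_X] at hz₁
    refine ⟨z₀, ?_, fun i => hz₀ _ (Ideal.subset_span ⟨i, rfl⟩), fun h => hz₁ (by rw [h, zero_mul])⟩
    rintro rfl
    exact hz₁ (by rw [Pi.zero_apply, mul_zero])
  · intro L L' _ _ _ _ _ _ _ _ _ _ hdisj x hx
    have h1 := congrArg (aeval (fun l => algebraMap L L' (x l))) hdec
    rw [map_mul, hx, mul_zero, map_sum] at h1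
    have h2 : ∀ j, aeval (fun l => algebraMap L L' (x l))
        (C (algebraMap κ' K' (ceB κ κ' j)) * map (algebraMap K K') (g j)) =
        algebraMap κ' L' (ceB κ κ' j) * algebraMap L L' (aeval x (g j)) := by
      intro j
      rw [map_mul, aeval_C, ← IsScalarTower.algebraMap_apply κ' K' L', aeval_map_algebraMap,
        ← aeval_algebraMap_apply]
      rfl
    simp only [h2] at h1
    exact hdisj _ _ (ceB κ κ').linearIndependent _ _ h1.symm j hj

end Pool.Agent.Lib.MP_44a246_ntCE
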