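import Mathlib
import Pool.Agent.Lib.MP_44a246_ntCE.CE10
import Pool.Agent.Lib.MP_44a246_ntCE.CE30
import Pool.Agent.Lib.MP_44a246_ntCE.CE40

/-!
# Extension of the constants: height inequalities outside of a hypersurface
-/

namespace Pool.Agent.Lib.MP_44a246_ntCE

open Pool.Agent.Lib.MP_44a246_nt
open Pool.Agent.Lib.MP_44a246_ntL
open Pool.Agent.Lib.MP_44a246_ntR
open Pool.Agent.Lib.MP_44a246_ntMB
open WithZero Module

universe u₁ u₂ u₃ u₄ u₅

/-- linear disjointness, for the extension of the constants of `L` -/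
theorem IsCE_disj {κ κ' L L' : Type*} [Field κ] [IsAlgClosed κ] [CharZero κ] [Field κ']
    [IsAlgClosed κ'] [CharZero κ'] [Field L] [Field L'] [Algebra κ κ'] [Algebra κ L] [Algebra κ' L']
    [Algebra L L'] [Algebra κ L'] [IsScalarTower κ κ' L'] [IsScalarTower κ L L']
    (h : IsCE κ κ' L L') {I : Type*} {a : I → κ'} (ha : LinearIndependent κ a) (s : Finset I)
    (f : I → L) (h0 : ∑ i ∈ s, algebraMap κ' L' (a i) * algebraMap L L' (f i) = 0) :
    ∀ i ∈ s, f i = 0 := by
  obtain ⟨w, hw⟩ := h.exists_ntr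
  exact lin_disj h.ff hw ha s f h0

/-- the places of contact are finite in number -/
theorem contact_finite {κ K L : Type*} [Field κ] [IsAlgClosed κ] [CharZero κ] [Field K]
    [Algebra κ K] [Field L] [Algebra K L] [Algebra κ L] (hL : IsFF κ L)
    {ι σ : Type*} [Finite ι] [Fintype σ] {P : ι → Prop} {y : ι → L} (hy : ∀ i, P i → y i ≠ 0)
    {x : σ → L} (hx : x ≠ 0) (d : ι → ℕ) (S : Set (Place κ K)) :
    {w : Place κ L | (∀ v ∈ S, ¬ (w.1.comap (algebraMap K L)).IsEquiv v.1) ∧
      ∃ i, P i ∧ w.1 (y i) < vmax w.1 x ^ d i}.Finite := by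
  have h1 : (⋃ i : {i // P i}, {w : Place κ L | w.1 (y i) ≠ 1}).Finite :=
    Set.finite_iUnion fun i => hL.place_finite (hy i i.2)
  refine (h1.union (hL.vmax_finite hx)).subset ?_
  rintro w ⟨-, i, hi, hw⟩
  by_contra hcon
  rw [Set.mem_union, not_or, Set.mem_iUnion] at hcon
  obtain ⟨h2, h3⟩ := hcon
  push Not at h2
  have h4 : w.1 (y i) = 1 := by
    by_contra h
    exact h2 ⟨i, hi⟩ h
  have h5 : vmax w.1 x = 1 := by
    by_contra h
    exact h3 h
  rw [h4, h5, one_pow] at hw
  exact lt_irrefl _ hw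

/-- A height inequality outside of a hypersurface which holds over the extension of the constants
holds. -/
theorem wrap_form {κ : Type u₁} {κ' : Type u₂} {K : Type u₃} {K' : Type u₄} [Field κ]
    [IsAlgClosed κ] [CharZero κ] [Field κ'] [IsAlgClosed κ'] [CharZero κ'] [Field K] [Field K']
    [Algebra κ κ'] [Algebra κ K] [Algebra κ' K'] [Algebra K K'] [Algebra κ K']
    [IsScalarTower κ κ' K'] [IsScalarTower κ K K'] (hK : IsCE κ κ' K K') {n p : ℕ}
    {d : Fin p → ℕ} {A : Finset (Fin p)} {F : Fin p → MvPolynomial (Fin (n + 1)) K}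
    {S : Set (Place κ K)} (cond : ℕ → ℕ → ℤ → Prop → Prop)
    (hcond : ∀ {m R R' h T T'}, R' ≤ R → (T → T') → cond m R h T → cond m R' h T')
    (concl : ℕ → ℕ → ℕ → ℕ → ℤ → Prop)
    (hconcl : ∀ {C N N' R R' m h}, N' ≤ N → R' ≤ R → concl C N' R' m h → concl C N R m h)
    (H : ∃ G : MvPolynomial (Fin (n + 1)) K', (∃ e, G.IsHomogeneous e) ∧
      (∃ z : Fin (n + 1) → AlgebraicClosure K', z ≠ 0 ∧
        (∀ j ∈ A, MvPolynomial.aeval z (MvPolynomial.map (algebraMap K K') (F j)) = 0) ∧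
        MvPolynomial.aeval z G ≠ 0) ∧
      ∃ C : ℕ, ∀ (L : Type u₄) [Field L] [Algebra K' L] [FiniteDimensional K' L] [Algebra κ' L]
        [IsScalarTower κ' K' L] (x : Fin (n + 1) → L), x ≠ 0 →
        (∀ j ∈ A, MvPolynomial.aeval x (MvPolynomial.map (algebraMap K K') (F j)) = 0) →
        cond (finrank K' L) (ramDeg κ' L K') (height κ' x) (pointField K' x = ⊤) →
        concl C (truncCount κ' (fun j => MvPolynomial.map (algebraMap K K') (F j)) d (extSet S) x)
            (ramDeg κ' L K') (finrank K' L) (height κ' x) ∨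
          MvPolynomial.aeval x G = 0) :
    ∃ G : MvPolynomial (Fin (n + 1)) K, (∃ e, G.IsHomogeneous e) ∧
      (∃ z : Fin (n + 1) → AlgebraicClosure K, z ≠ 0 ∧
        (∀ j ∈ A, MvPolynomial.aeval z (F j) = 0) ∧ MvPolynomial.aeval z G ≠ 0) ∧
      ∃ C : ℕ, ∀ (L : Type u₅) [Field L] [Algebra K L] [FiniteDimensional K L] [Algebra κ L]
        [IsScalarTower κ K L] (x : Fin (n + 1) → L), x ≠ 0 →
        (∀ j ∈ A, MvPolynomial.aeval x (F j) = 0) →
        cond (finrank K L) (ramDeg κ L K) (height κ x) (pointField K x = ⊤) →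
        concl C (truncCount κ F d S x) (ramDeg κ L K) (finrank K L) (height κ x) ∨
          MvPolynomial.aeval x G = 0 := by
  obtain ⟨G, hG, ⟨z, hz, hz1, hz2⟩, C, hC⟩ := H
  obtain ⟨G₀, h1, ⟨z₀, h2, h3, h4⟩, h5⟩ := exists_form (κ := κ) hK.closure_top
    (fun j : A => F j) G hG hz (fun j => hz1 j j.2) hz2
  refine ⟨G₀, h1, ⟨z₀, h2, fun j hj => h3 ⟨j, hj⟩, h4⟩, C, ?_⟩
  intro L _ _ _ _ _ x hx hxA hcx
  obtain ⟨L', _, _, _, _, _, _, _, _, _, _, _, _, hL, hspan⟩ := exists_top hK (L := L)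
  have hx' : (fun i => algebraMap L L' (x i)) ≠ 0 := by
    obtain ⟨i, hi⟩ := Function.ne_iff.1 hx
    intro h
    have h6 := congrFun h i
    exact hi ((map_eq_zero _).1 h6)
  have hev : ∀ f : MvPolynomial (Fin (n + 1)) K,
      MvPolynomial.aeval (fun i => algebraMap L L' (x i)) (MvPolynomial.map (algebraMap K K') f) =
        algebraMap L L' (MvPolynomial.aeval x f) := by
    intro f
    rw [MvPolynomial.aeval_map_algebraMap, ← MvPolynomial.aeval_algebraMap_apply]
    rfl
  have hN : truncCount κ' (fun j => MvPolynomial.map (algebraMap K K') (F j)) d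
      (extSet S : Set (Place κ' K')) (fun i => algebraMap L L' (x i)) ≤ truncCount κ F d S x := by
    unfold truncCount
    have h6 := ncard_le (S := S) hK hL (P := fun i => MvPolynomial.aeval x (F i) ≠ 0)
      (y := fun i => MvPolynomial.aeval x (F i)) (fun i hi => hi) (x := x) d
      (contact_finite hL.ff (fun i hi => hi) hx d S)
    simp only [hev]
    refine le_trans (le_of_eq ?_) h6
    congr 1
    ext w
    simp only [Set.mem_ofPred_eq, ne_eq, map_eq_zero]
  have hR := ramDeg_le hK hL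
  rcases hC L' (fun i => algebraMap L L' (x i)) hx' (fun j hj => by rw [hev, hxA j hj, map_zero]) (by
    rw [hL.height_eq hx, finrank_eq hK hL]
    exact hcond hR (pointField_top hspan) hcx) with h | h
  · left
    rw [hL.height_eq hx, finrank_eq hK hL] at h
    exact hconcl hN hR h
  · right
    exact h5 (fun I a ha s f h0 => IsCE_disj hL ha s f h0) x h

end Pool.Agent.Lib.MP_44a246_ntCE
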