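import Mathlib
import Pool.Agent.Lib.MP_44a246_ntCE.CE50

/-!
# From algebraically closed fields of infinite transcendence degree to all algebraically closed
fields of characteristic zero: height inequalities outside of a hypersurface
-/

namespace Pool.Agent.Lib.MP_44a246_ntCE

open Pool.Agent.Lib.MP_44a246_nt
open Pool.Agent.Lib.MP_44a246_ntL
open Pool.Agent.Lib.MP_44a246_ntR
open Pool.Agent.Lib.MP_44a246_ntMB
open WithZero Module

universe u v w

/-- the coefficients stay algebraically independent -/
theorem indep_map {K K' : Type*} [Field K] [CharZero K] [Field K'] [CharZero K'] [Algebra K K']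
    {n p : ℕ} {d : Fin p → ℕ} {F : Fin p → MvPolynomial (Fin (n + 1)) K}
    (h : AlgebraicIndependent ℚ
      (fun I : {I : Fin p × (Fin (n + 1) →₀ ℕ) // I.2.degree = d I.1} => (F I.1.1).coeff I.1.2)) :
    AlgebraicIndependent ℚ
      (fun I : {I : Fin p × (Fin (n + 1) →₀ ℕ) // I.2.degree = d I.1} =>
        (MvPolynomial.map (algebraMap K K') (F I.1.1)).coeff I.1.2) := by
  have h1 := h.map' (f := (algebraMap K K').toRatAlgHom) (algebraMap K K').injective
  have h2 : (fun I : {I : Fin p × (Fin (n + 1) →₀ ℕ) // I.2.degree = d I.1} =>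
        (MvPolynomial.map (algebraMap K K') (F I.1.1)).coeff I.1.2) =
      (algebraMap K K').toRatAlgHom ∘
      (fun I : {I : Fin p × (Fin (n + 1) →₀ ℕ) // I.2.degree = d I.1} => (F I.1.1).coeff I.1.2) := by
    funext I
    rw [MvPolynomial.coeff_map]
    rfl
  rw [h2]
  exact h1

/-- A height inequality (outside of a hypersurface) for forms with algebraically independent
coefficients which holds over all algebraically closed fields of constants of infinite transcendence
degree holds over all algebraically closed fields of characteristic zero. -/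
theorem wrap_all {n p : ℕ} {d : Fin p → ℕ} {A : Finset (Fin p)}
    (cond : ℕ → ℕ → ℤ → Prop → Prop)
    (hcond : ∀ {m R R' h T T'}, R' ≤ R → (T → T') → cond m R h T → cond m R' h T')
    (concl : ℕ → ℕ → ℕ → ℕ → ℤ → Prop)
    (hconcl : ∀ {C N N' R R' m h}, N' ≤ N → R' ≤ R → concl C N' R' m h → concl C N R m h)
    (H : ∀ (κ : Type u) (K : Type u) [Field κ] [IsAlgClosed κ] [CharZero κ] [Field K] [CharZero K]
        [Algebra κ K] (_ : Cardinal.aleph0 ≤ Algebra.trdeg ℚ κ) (_ : IsFF κ K)
        (F : Fin p → MvPolynomial (Fin (n + 1)) K) (_ : ∀ j, (F j).IsHomogeneous (d j))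
        (_ : AlgebraicIndependent ℚ
          (fun I : {I : Fin p × (Fin (n + 1) →₀ ℕ) // I.2.degree = d I.1} =>
            (F I.1.1).coeff I.1.2))
        (S : Set (Place κ K)) (_ : S.Finite),
        ∃ G : MvPolynomial (Fin (n + 1)) K, (∃ e, G.IsHomogeneous e) ∧
          (∃ z : Fin (n + 1) → AlgebraicClosure K, z ≠ 0 ∧
            (∀ j ∈ A, MvPolynomial.aeval z (F j) = 0) ∧ MvPolynomial.aeval z G ≠ 0) ∧
          ∃ C : ℕ, ∀ (L : Type u) [Field L] [Algebra K L] [FiniteDimensional K L] [Algebra κ L]
            [IsScalarTower κ K L] (x : Fin (n + 1) → L), x ≠ 0 →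
            (∀ j ∈ A, MvPolynomial.aeval x (F j) = 0) →
            cond (finrank K L) (ramDeg κ L K) (height κ x) (pointField K x = ⊤) →
            concl C (truncCount κ F d S x) (ramDeg κ L K) (finrank K L) (height κ x) ∨
              MvPolynomial.aeval x G = 0)
    (κ : Type u) (K : Type v) [Field κ] [IsAlgClosed κ] [CharZero κ] [Field K] [CharZero K]
    [Algebra κ K] (hK : IsFF κ K)
    (F : Fin p → MvPolynomial (Fin (n + 1)) K) (hF : ∀ j, (F j).IsHomogeneous (d j))
    (hFa : AlgebraicIndependent ℚ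
      (fun I : {I : Fin p × (Fin (n + 1) →₀ ℕ) // I.2.degree = d I.1} =>
        (F I.1.1).coeff I.1.2))
    (S : Set (Place κ K)) (hS : S.Finite) :
    ∃ G : MvPolynomial (Fin (n + 1)) K, (∃ e, G.IsHomogeneous e) ∧
      (∃ z : Fin (n + 1) → AlgebraicClosure K, z ≠ 0 ∧
        (∀ j ∈ A, MvPolynomial.aeval z (F j) = 0) ∧ MvPolynomial.aeval z G ≠ 0) ∧
      ∃ C : ℕ, ∀ (L : Type w) [Field L] [Algebra K L] [FiniteDimensional K L] [Algebra κ L]
        [IsScalarTower κ K L] (x : Fin (n + 1) → L), x ≠ 0 →
        (∀ j ∈ A, MvPolynomial.aeval x (F j) = 0) →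
        cond (finrank K L) (ramDeg κ L K) (height κ x) (pointField K x = ⊤) →
        concl C (truncCount κ F d S x) (ramDeg κ L K) (finrank K L) (height κ x) ∨
          MvPolynomial.aeval x G = 0 := by
  obtain ⟨κ', _, _, _, _, htr⟩ := exists_ext_const κ
  obtain ⟨K', _, _, _, _, _, _, _, hCE⟩ := exists_base hK (κ' := κ')
  exact wrap_form hCE cond hcond concl hconcl (H κ' K' htr hCE.isFF
    (fun j => MvPolynomial.map (algebraMap K K') (F j)) (fun j => (hF j).map _) (indep_map hFa)
    (extSet S) (extSet_finite hCE hS))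

end Pool.Agent.Lib.MP_44a246_ntCE
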